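import Pool.Agent.H.MP_c6e1d2_co.B

namespace Pool.Agent.Results.MP_c6e1d2_co.Yes

open Finset Matrix Pool.Agent.H.MP_c6e1d2_co

variable {m n : ℕ}

/-- Determinant lower bound: row and column sets of size `k` are listed increasingly. -/
noncomputable def detLB (A : Matrix (Fin m) (Fin n) ℝ) : ℝ :=
  sSup {x | ∃ k : ℕ, 1 ≤ k ∧ ∃ (r : Fin k ↪o Fin m) (c : Fin k ↪o Fin n),
    x = |(A.submatrix r c).det| ^ (1 / k : ℝ)}

def Feasible (A : Matrix (Fin m) (Fin n) ℝ) (S : Finset (Fin n)) (L : ℝ) : Prop :=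
  ∃ (d : ℕ) (v : Fin n → EuclideanSpace ℝ (Fin d)),
    (∀ i, ‖∑ j ∈ S, A i j • v j‖ ^ 2 ≤ L ^ 2) ∧ (S.card : ℝ) / 2 ≤ ∑ j, ‖v j‖ ^ 2 ∧
      (∀ j ∈ S, ‖v j‖ ^ 2 ≤ 1) ∧ ∀ j ∉ S, v j = 0

/-- Hereditary vector discrepancy with half of the total mass. -/
noncomputable def herpvdisc (A : Matrix (Fin m) (Fin n) ℝ) : ℝ :=
  sInf {L | 0 ≤ L ∧ ∀ S, Feasible A S L}

theorem result (m n : ℕ) (A : Matrix (Fin m) (Fin n) ℝ) : detLB A ≤ 36 * herpvdisc A := by
  refine Real.sSup_le ?_ (mul_nonneg (by norm_num) (Real.sInf_nonneg fun _ h => h.1))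
  rintro _ ⟨k, hk, r, c, rfl⟩
  rw [← div_le_iff₀' (by norm_num)]
  refine le_csInf ⟨∑ i, ∑ j, |A i j|, by positivity, fun S => ⟨1, fun j =>
    if j ∈ S then EuclideanSpace.single 0 1 else 0, fun i => ?_, ?_, fun j hj => by simp [hj],
    fun j hj => if_neg hj⟩⟩ fun L ⟨L0, hL⟩ => ?_
  · refine pow_le_pow_left₀ (norm_nonneg _) ((norm_sum_le _ _).trans (le_trans ?_
      (single_le_sum (fun i _ => by positivity) (mem_univ i)))) 2
    exact (sum_le_sum fun j hj => by simp [hj, norm_smul]).trans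
      (sum_le_sum_of_subset_of_nonneg (subset_univ S) fun j _ _ => abs_nonneg _)
  · simp [apply_ite]
  rw [div_le_iff₀' (by norm_num)]
  have := core (A.submatrix r c) L0 fun S l l0 h => by
    obtain ⟨d, v, h1, h2, -, h4⟩ := hL (S.map c.toEmbedding)
    have z : ∀ j ∉ S, v (c j) = 0 := fun j hj => h4 _ (by simpa using hj)
    have e1 : ∑ j, ‖v j‖ ^ 2 = ∑ p, (fun j => v (c j) p) ⬝ᵥ fun j => v (c j) p := by
      rw [← sum_subset (subset_univ (S.map c.toEmbedding)) fun j _ hj => by simp [h4 j hj],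
        sum_map, sum_subset (subset_univ S) fun j _ hj => by simp [z j hj]]
      simp only [dotProduct, EuclideanSpace.real_norm_sq_eq, ← sq]
      exact sum_comm
    have e2 : ∑ p, (A.submatrix r c *ᵥ fun j => v (c j) p) ⬝ᵥ (A.submatrix r c *ᵥ
        fun j => v (c j) p) ≤ k * L ^ 2 := by
      simp only [dotProduct]
      rw [sum_comm]
      refine (sum_le_card_nsmul _ _ _ fun i _ => le_of_eq_of_le ?_ (h1 (r i))).trans (by simp)
      rw [sum_map, sum_subset (subset_univ S) fun j _ hj => by simp [z j hj]]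
      simp [EuclideanSpace.real_norm_sq_eq, ← sq, mulVec, dotProduct]
    have := sum_le_sum fun p (_ : p ∈ univ) => h (fun j => v (c j) p) fun j hj => by simp [z j hj]
    rw [← mul_sum, ← e1] at this
    rw [card_map] at h2
    rw [Fintype.card_fin]
    nlinarith [mul_le_mul_of_nonneg_left h2 l0]
  rw [Fintype.card_fin] at this
  refine (Real.rpow_le_rpow (abs_nonneg _) this (by positivity)).trans_eq ?_
  rw [one_div, Real.pow_rpow_inv_natCast (by positivity) (by omega)]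

end Pool.Agent.Results.MP_c6e1d2_co.Yes
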